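import Pool.Agent.helper7.Fit.Solv

/-!
The index `|G : F(G)|` is bounded in terms of `m(G)` and the index of any solvable normal
subgroup of `G`. With `R = G` this bounds `|G : F(G)|` in terms of `m(G)` for all finite solvable
groups.
-/

universe u

open Pool.Agent.helper7.Fit

theorem Pool.Agent.Results.MP_ad7422_al.FittingIndexSolvable.result :
    ∃ f : ℕ → ℕ → ℕ, ∀ (G : Type u) [Group G] [Finite G] (R : Subgroup G), R.Normal →
      Group.IsSolvable R → (fitting G).index ≤ f (maxZeros G) R.index :=
  exists_function_solvable.{u}
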