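import Pool.Agent.H51d.Q2

/-!
Q2 of MP_ad7422_al: the order of a finite group with nonabelian Fitting subgroup is not bounded in
terms of `m(G)`.  The examples are `G = (P × (ℤ/29)^n) ⋊ C₇`, where `P` is the Sylow 2-subgroup of
the Suzuki group `Sz(8)` and `C₇` acts fixed-point-freely.
-/

namespace Pool.Agent.Results.MP_ad7422_al.NonabelianFitting

open Pool.Agent.H51d

/-- For every `B` there is a finite solvable group `G` with nonabelian Fitting subgroup,
`m(G) ≤ 6` and `|G| > B`. -/
theorem result : ∀ B : ℕ, ∃ (G : Type) (_ : Group G) (_ : Finite G), Group.IsSolvable G ∧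
    (∃ a ∈ fitting G, ∃ b ∈ fitting G, a * b ≠ b * a) ∧ maxZeros G ≤ 6 ∧ B < Nat.card G :=
  q2

end Pool.Agent.Results.MP_ad7422_al.NonabelianFitting
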